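import Pool.Agent.Helper29.E3.St2
import Pool.Agent.Helper28.AE.M_DIV

set_option autoImplicit false

namespace Pool.Agent.Helper66.E3

open Pool.Agent.Helper29.E3

theorem hPWR : StPWR := by
  intro r hr
  have hr0 : (0 : ℝ) < r := by exact_mod_cast hr
  obtain ⟨C0, hC0, hdiv⟩ := Pool.Agent.Helper28.AE.hDIV (1 / (2 * (r : ℝ))) (by positivity)
  refine ⟨4 * C0, by positivity, ?_⟩
  intro q X U hq hX hU h1 h2
  have hqR : (1 : ℝ) ≤ q := by exact_mod_cast hq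
  have hq0 : (0 : ℝ) < q := by linarith
  have hXR : (1 : ℝ) ≤ X := by exact_mod_cast hX
  have hX0 : (0 : ℝ) < X := by linarith
  have hUR : (1 : ℝ) ≤ U := by exact_mod_cast hU
  have hU0 : (0 : ℝ) < U := by linarith
  have h1R : (q : ℝ) ^ (3 * r + 4) ≤ (X : ℝ) ^ (2 * r) := by exact_mod_cast h1
  have h2R : (U : ℝ) ^ r ≤ 2 ^ r * q := by exact_mod_cast h2
  have hrn : r ≠ 0 := by omega
  -- the bound for U
  have hUb : (U : ℝ) ≤ 2 * (q : ℝ) ^ (1 / (r : ℝ)) := by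
    have e1 : (2 * (q : ℝ) ^ (1 / (r : ℝ))) ^ r = 2 ^ r * q := by
      rw [mul_pow, ← Real.rpow_natCast ((q : ℝ) ^ (1 / (r : ℝ))) r, ← Real.rpow_mul hq0.le,
        one_div, inv_mul_cancel₀ hr0.ne', Real.rpow_one]
    by_contra hc
    push Not at hc
    have h3 : (2 * (q : ℝ) ^ (1 / (r : ℝ))) ^ r < (U : ℝ) ^ r :=
      pow_lt_pow_left₀ hc (by positivity) hrn
    rw [e1] at h3
    linarith
  -- the bound for q
  have hd : (0 : ℝ) < 3 * (r : ℝ) + 4 := by positivity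
  have hqb : (q : ℝ) ≤ (X : ℝ) ^ (2 * (r : ℝ) / (3 * (r : ℝ) + 4)) := by
    have e1 : ((X : ℝ) ^ (2 * (r : ℝ) / (3 * (r : ℝ) + 4))) ^ (3 * r + 4) = (X : ℝ) ^ (2 * r) := by
      rw [← Real.rpow_natCast ((X : ℝ) ^ (2 * (r : ℝ) / (3 * (r : ℝ) + 4))) (3 * r + 4),
        ← Real.rpow_mul hX0.le, ← Real.rpow_natCast (X : ℝ) (2 * r)]
      congr 1
      push_cast
      field_simp
    by_contra hc
    push Not at hc
    have h3 : ((X : ℝ) ^ (2 * (r : ℝ) / (3 * (r : ℝ) + 4))) ^ (3 * r + 4) <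
        (q : ℝ) ^ (3 * r + 4) :=
      pow_lt_pow_left₀ hc (by positivity) (by omega)
    rw [e1] at h3
    linarith
  have hdq := hdiv q hq
  have h5 : (U : ℝ) * q + q ≤ 4 * ((q : ℝ) ^ (1 / (r : ℝ)) * q) := by
    have h6 : (1 : ℝ) ≤ (q : ℝ) ^ (1 / (r : ℝ)) := Real.one_le_rpow hqR (by positivity)
    nlinarith
  have h7 : √(q : ℝ) * (q.divisors.card : ℝ) * (U * q + q) ≤
      √(q : ℝ) * (C0 * (q : ℝ) ^ (1 / (2 * (r : ℝ)))) * (4 * ((q : ℝ) ^ (1 / (r : ℝ)) * q)) := by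
    have h8 : √(q : ℝ) * (q.divisors.card : ℝ) ≤ √(q : ℝ) * (C0 * (q : ℝ) ^ (1 / (2 * (r : ℝ)))) :=
      mul_le_mul_of_nonneg_left hdq (Real.sqrt_nonneg _)
    exact mul_le_mul h8 h5 (by positivity) (by positivity)
  refine h7.trans ?_
  have e2 : √(q : ℝ) * (C0 * (q : ℝ) ^ (1 / (2 * (r : ℝ)))) * (4 * ((q : ℝ) ^ (1 / (r : ℝ)) * q)) =
      4 * C0 * (q : ℝ) ^ (3 / 2 + 3 / (2 * (r : ℝ))) := by
    have e3 : (q : ℝ) ^ (3 / 2 + 3 / (2 * (r : ℝ))) =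
        (q : ℝ) ^ ((1 : ℝ) / 2) * (q : ℝ) ^ (1 / (2 * (r : ℝ))) * ((q : ℝ) ^ (1 / (r : ℝ)) * q) := by
      have e4 : (q : ℝ) ^ (1 / (r : ℝ)) * q = (q : ℝ) ^ (1 / (r : ℝ) + 1) := by
        rw [Real.rpow_add hq0, Real.rpow_one]
      rw [e4, ← Real.rpow_add hq0, ← Real.rpow_add hq0]
      congr 1
      field_simp
      ring
    rw [e3, Real.sqrt_eq_rpow]
    ring
  rw [e2]
  have h9 : (q : ℝ) ^ (3 / 2 + 3 / (2 * (r : ℝ))) ≤ (X : ℝ) ^ (1 - 1 / (3 * (r : ℝ) + 4)) := by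
    have h10 : (q : ℝ) ^ (3 / 2 + 3 / (2 * (r : ℝ))) ≤
        ((X : ℝ) ^ (2 * (r : ℝ) / (3 * (r : ℝ) + 4))) ^ (3 / 2 + 3 / (2 * (r : ℝ))) :=
      Real.rpow_le_rpow hq0.le hqb (by positivity)
    refine h10.trans (le_of_eq ?_)
    rw [← Real.rpow_mul hX0.le]
    congr 1
    field_simp
    ring
  exact mul_le_mul_of_nonneg_left h9 (by positivity)

end Pool.Agent.Helper66.E3
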